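import Pool.Agent.V8H81.Erd.Unstable

/-!
# Homeomorphism groups of disjoint unions
-/

set_option autoImplicit false

open Filter Topology Set

namespace Pool.Agent.V8H81.Erd

/-- the compact-open topology on the homeomorphism group -/
@[reducible] def co (M : Type) [TopologicalSpace M] : TopologicalSpace (M ≃ₜ M) :=
  TopologicalSpace.induced (fun g : M ≃ₜ M => ContinuousMap.mk (⇑g) g.continuous) inferInstance

section
variable {X : Type} [TopologicalSpace X]

/-- a sequence of homeomorphisms of `X` as a homeomorphism of the disjoint union `ℕ × X` -/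
def Θ (g : ℕ → (X ≃ₜ X)) : (ℕ × X) ≃ₜ (ℕ × X) where
  toFun p := (p.1, g p.1 p.2)
  invFun p := (p.1, (g p.1).symm p.2)
  left_inv p := by simp
  right_inv p := by simp
  continuous_toFun := by
    refine continuous_prod_of_discrete_left.2 fun k => ?_
    exact continuous_const.prodMk (g k).continuous
  continuous_invFun := by
    refine continuous_prod_of_discrete_left.2 fun k => ?_
    exact continuous_const.prodMk (g k).symm.continuous

theorem Θ_apply (g : ℕ → (X ≃ₜ X)) (p : ℕ × X) : Θ g p = (p.1, g p.1 p.2) := rfl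

variable [T2Space X]

theorem Θ_closedEmbedding :
    @IsClosedEmbedding (ℕ → (X ≃ₜ X)) ((ℕ × X) ≃ₜ (ℕ × X))
      (@Pi.topologicalSpace ℕ (fun _ => X ≃ₜ X) (fun _ => co X)) (co (ℕ × X)) Θ := by
  let t1 : TopologicalSpace (X ≃ₜ X) := co X
  let t2 : TopologicalSpace ((ℕ × X) ≃ₜ (ℕ × X)) := co (ℕ × X)
  let c1 : (X ≃ₜ X) → C(X, X) := fun g => ⟨g, g.continuous⟩
  let c2 : ((ℕ × X) ≃ₜ (ℕ × X)) → C(ℕ × X, ℕ × X) := fun g => ⟨g, g.continuous⟩
  have hc1 : IsInducing c1 := ⟨rfl⟩
  have hc2 : IsInducing c2 := ⟨rfl⟩
  -- continuity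
  have hcont : Continuous (Θ : (ℕ → (X ≃ₜ X)) → _) := by
    rw [hc2.continuous_iff, ContinuousMap.continuous_compactOpen]
    intro K hK U hU
    have hfin : (Prod.fst '' K).Finite := (hK.image continuous_fst).finite_of_discrete
    have e : {g : ℕ → (X ≃ₜ X) | MapsTo (c2 (Θ g)) K U} =
        ⋂ k ∈ Prod.fst '' K, {g : ℕ → (X ≃ₜ X) | MapsTo (c1 (g k)) ((fun x => (k, x)) ⁻¹' K)
          ((fun x => (k, x)) ⁻¹' U)} := by
      ext g
      simp only [mem_ofPred_eq, mem_iInter]
      constructor
      · intro h k _ x hx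
        exact h hx
      · rintro h ⟨k, x⟩ hx
        exact h k ⟨_, hx, rfl⟩ hx
    show IsOpen {g : ℕ → (X ≃ₜ X) | MapsTo (c2 (Θ g)) K U}
    rw [e]
    refine hfin.isOpen_biInter fun k _ => ?_
    have hKk : IsCompact ((fun x : X => (k, x)) ⁻¹' K) := by
      refine IsClosedEmbedding.isCompact_preimage ?_ hK
      exact Function.LeftInverse.isClosedEmbedding (f := Prod.snd) (fun x => rfl) continuous_snd
        (by fun_prop)
    have hUk : IsOpen ((fun x : X => (k, x)) ⁻¹' U) := hU.preimage (by fun_prop)
    exact (ContinuousMap.isOpen_setOfPred_mapsTo hKk hUk).preimage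
      (hc1.continuous.comp (continuous_apply k))
  -- the left inverse
  let G : ((ℕ × X) ≃ₜ (ℕ × X)) → (ℕ → C(X, X)) := fun h k =>
    ((⟨Prod.snd, continuous_snd⟩ : C(ℕ × X, X)).comp (c2 h)).comp
      (⟨fun x => (k, x), by fun_prop⟩ : C(X, ℕ × X))
  have hG : Continuous G := by
    refine continuous_pi fun k => ?_
    exact (ContinuousMap.continuous_precomp _).comp
      ((ContinuousMap.continuous_postcomp _).comp hc2.continuous)
  have hF : IsInducing (G ∘ Θ) := by
    have e : (G ∘ Θ) = Pi.map (fun _ : ℕ => c1) := by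
      funext g k
      rfl
    rw [e]
    exact IsInducing.piMap fun _ => hc1
  have hind : IsInducing (Θ : (ℕ → (X ≃ₜ X)) → _) := IsInducing.of_comp hcont hG hF
  have hinj : Function.Injective (Θ : (ℕ → (X ≃ₜ X)) → _) := by
    intro g g' h
    funext k
    ext x
    have := congrArg (fun h : (ℕ × X) ≃ₜ (ℕ × X) => (h (k, x)).2) h
    exact this
  refine ⟨⟨hind, hinj⟩, ?_⟩
  have hr : range (Θ : (ℕ → (X ≃ₜ X)) → _) =
      ⋂ p : ℕ × X, {h : (ℕ × X) ≃ₜ (ℕ × X) | (c2 h p).1 = p.1} := by
    ext h
    simp only [mem_iInter, mem_ofPred_eq]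
    constructor
    · rintro ⟨g, rfl⟩ p
      rfl
    · intro hh
      have hh' : ∀ p, (h p).1 = p.1 := hh
      have hs : ∀ p, (h.symm p).1 = p.1 := by
        intro p
        have := hh' (h.symm p)
        rw [h.apply_symm_apply] at this
        exact this.symm
      let g : ℕ → (X ≃ₜ X) := fun k =>
        { toFun := fun x => (h (k, x)).2
          invFun := fun x => (h.symm (k, x)).2
          left_inv := by
            intro x
            have e1 : ((k, (h (k, x)).2) : ℕ × X) = h (k, x) := Prod.ext (hh' (k, x)).symm rfl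
            show (h.symm (k, (h (k, x)).2)).2 = x
            rw [e1, h.symm_apply_apply]
          right_inv := by
            intro x
            have e1 : ((k, (h.symm (k, x)).2) : ℕ × X) = h.symm (k, x) :=
              Prod.ext (hs (k, x)).symm rfl
            show (h (k, (h.symm (k, x)).2)).2 = x
            rw [e1, h.apply_symm_apply]
          continuous_toFun := by
            have := h.continuous
            fun_prop
          continuous_invFun := by
            have := h.symm.continuous
            fun_prop }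
      refine ⟨g, ?_⟩
      ext p
      · exact (hh' p).symm
      · rfl
  rw [hr]
  refine isClosed_iInter fun p => ?_
  have h1 : IsClosed {f : C(ℕ × X, ℕ × X) | (f p).1 = p.1} :=
    isClosed_eq (continuous_fst.comp (continuous_eval_const p)) continuous_const
  exact h1.preimage hc2.continuous

end

end Pool.Agent.V8H81.Erd
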