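import Mathlib

/-!
# Square summable sequences: elementary facts
-/

set_option autoImplicit false

open Filter Topology Set

namespace Pool.Agent.V8H81.Erd

/-- the real Hilbert space of square summable sequences -/
abbrev L2 : Type := lp (fun _ : ℕ => ℝ) 2

theorem two_toReal : (2 : ENNReal).toReal = 2 := by norm_num

theorem summable_sq (x : L2) : Summable (fun i => (x i) ^ 2) := by
  have h := lp.memℓp x
  rw [memℓp_gen_iff (by norm_num)] at h
  refine h.congr fun i => ?_
  rw [two_toReal, Real.norm_eq_abs]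
  norm_num

theorem norm_sq (x : L2) : ‖x‖ ^ 2 = ∑' i, (x i) ^ 2 := by
  have h := lp.norm_rpow_eq_tsum (p := 2) (by norm_num) x
  rw [two_toReal] at h
  have e1 : ‖x‖ ^ (2 : ℝ) = ‖x‖ ^ 2 := by norm_num
  rw [e1] at h
  rw [h]
  refine tsum_congr fun i => ?_
  rw [Real.norm_eq_abs]
  norm_num

/-- the element of `L2` with the given coordinates -/
def mk (f : ℕ → ℝ) (hf : Summable fun i => (f i) ^ 2) : L2 :=
  ⟨f, by
    show Memℓp f 2
    rw [memℓp_gen_iff (by norm_num)]
    refine hf.congr fun i => ?_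
    rw [two_toReal, Real.norm_eq_abs]
    norm_num⟩

theorem mk_apply (f : ℕ → ℝ) (hf : Summable fun i => (f i) ^ 2) (i : ℕ) : mk f hf i = f i := rfl

theorem sum_le_norm_sq (x : L2) (s : Finset ℕ) : ∑ i ∈ s, (x i) ^ 2 ≤ ‖x‖ ^ 2 := by
  rw [norm_sq]
  exact (summable_sq x).sum_le_tsum s fun i _ => sq_nonneg _

theorem norm_sq_le {x : L2} {c : ℝ} (h : ∀ N, ∑ i ∈ Finset.range N, (x i) ^ 2 ≤ c) :
    ‖x‖ ^ 2 ≤ c := by
  rw [norm_sq]
  exact (summable_sq x).tsum_le_of_sum_range_le h

theorem continuous_coord (i : ℕ) : Continuous fun x : L2 => x i := by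
  have : LipschitzWith 1 fun x : L2 => x i := by
    refine LipschitzWith.of_dist_le_mul fun x y => ?_
    rw [NNReal.coe_one, one_mul, dist_eq_norm, dist_eq_norm]
    have h : ‖(x - y) i‖ ≤ ‖x - y‖ := lp.norm_apply_le_norm (by norm_num) (x - y) i
    simpa using h
  exact this.continuous

/-- the coordinates `0` and `1, 1/2, 1/3, …` -/
def K : Set ℝ := {r | r = 0 ∨ ∃ k : ℕ, 0 < k ∧ r = 1 / (k : ℝ)}

theorem K_countable : K.Countable := by
  have h : K ⊆ Set.range (fun k : ℕ => 1 / (k : ℝ)) := by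
    rintro r (rfl | ⟨k, _, rfl⟩)
    · exact ⟨0, by simp⟩
    · exact ⟨k, rfl⟩
  exact (Set.countable_range _).mono h

theorem K_compact : IsCompact K := by
  have h := (tendsto_one_div_add_atTop_nhds_zero_nat (𝕜 := ℝ)).isCompact_insert_range
  have e : K = insert (0 : ℝ) (Set.range fun n : ℕ => 1 / ((n : ℝ) + 1)) := by
    ext r
    constructor
    · rintro (rfl | ⟨k, hk, rfl⟩)
      · exact Or.inl rfl
      · refine Or.inr ⟨k - 1, ?_⟩
        have : ((k - 1 : ℕ) : ℝ) = (k : ℝ) - 1 := by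
          rw [Nat.cast_sub hk]
          simp
        simp only [this]
        congr 1
        ring
    · rintro (rfl | ⟨n, rfl⟩)
      · exact Or.inl rfl
      · exact Or.inr ⟨n + 1, Nat.succ_pos n, by push_cast; rfl⟩
  rw [e]
  exact h

theorem K_nonneg {r : ℝ} (h : r ∈ K) : 0 ≤ r := by
  rcases h with rfl | ⟨k, _, rfl⟩
  · exact le_rfl
  · positivity

theorem one_div_mem_K {k : ℕ} (h : 0 < k) : 1 / (k : ℝ) ∈ K := Or.inr ⟨k, h, rfl⟩

/-- complete Erdős space, as a set of square summable sequences -/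
def E : Set L2 := {x | ∀ i : ℕ, x i ∈ K}

theorem E_closed : IsClosed E := by
  have h : E = ⋂ i : ℕ, (fun x : L2 => x i) ⁻¹' K := by
    ext x
    simp [E]
  rw [h]
  exact isClosed_iInter fun i => K_compact.isClosed.preimage (continuous_coord i)

end Pool.Agent.V8H81.Erd
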