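import Pool.Agent.V8H81.Erd.L2

/-!
# Erdős' theorem: nonempty clopen subsets of complete Erdős space are unbounded
-/

set_option autoImplicit false

open Filter Topology Set

namespace Pool.Agent.V8H81.Erd

/-- tails -/
theorem norm_sub_sq_le_tail {u v x : L2} {N : ℕ} (h1 : ∀ i < N, u i = v i)
    (h2 : ∀ i, N ≤ i → v i = x i) :
    ‖u - v‖ ^ 2 ≤ ∑' k, ((u - x : L2) (k + N)) ^ 2 := by
  have hs := summable_sq (u - v)
  rw [norm_sq, ← hs.sum_add_tsum_nat_add N]
  have e1 : ∑ i ∈ Finset.range N, ((u - v : L2) i) ^ 2 = 0 := by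
    refine Finset.sum_eq_zero fun i hi => ?_
    have : (u - v : L2) i = u i - v i := rfl
    rw [this, h1 i (Finset.mem_range.1 hi), sub_self]
    norm_num
  rw [e1, zero_add]
  refine le_of_eq (tsum_congr fun k => ?_)
  have e2 : (u - v : L2) (k + N) = u (k + N) - v (k + N) := rfl
  have e3 : (u - x : L2) (k + N) = u (k + N) - x (k + N) := rfl
  rw [e2, e3, h2 (k + N) (by omega)]

/-- one stage -/
theorem stage {C : Set L2} (hCE : C ⊆ E) {R : ℝ} (hR : ∀ y ∈ C, ‖y‖ ≤ R)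
    {x : L2} (m : ℕ) (hm : 0 < m) (y : L2) (N : ℕ) (hy : y ∈ C) (hyx : ∀ i, N ≤ i → y i = x i) :
    ∃ (y' : L2) (N' : ℕ), y' ∈ C ∧ N < N' ∧ (∀ i < N, y' i = y i) ∧ (∀ i, N' ≤ i → y' i = x i) ∧
      ∃ z ∈ E, z ∉ C ∧ ‖z - y'‖ ≤ 1 / (m : ℝ) := by
  have hm' : (0 : ℝ) < m := by exact_mod_cast hm
  have hpos : (0 : ℝ) < (1 / (m : ℝ)) ^ 2 := by positivity
  obtain ⟨N₀, hN₀⟩ : ∃ N₀, ∀ i, N₀ ≤ i → (x i) ^ 2 < (1 / (m : ℝ)) ^ 2 := by
    have h := (summable_sq x).tendsto_atTop_zero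
    exact eventually_atTop.1 (h.eventually_lt_const hpos)
  set N₁ := max (N + 1) N₀ with hN₁
  have hN1 : N < N₁ := lt_of_lt_of_le (Nat.lt_succ_self N) (le_max_left _ _)
  have hN2 : N₀ ≤ N₁ := le_max_right _ _
  let f : ℕ → ℕ → ℝ := fun j i => if N₁ ≤ i ∧ i < N₁ + j then 1 / (m : ℝ) else y i
  have hf : ∀ j, Summable fun i => (f j i) ^ 2 := by
    intro j
    refine (summable_sq y).congr_cofinite ?_
    rw [Nat.cofinite_eq_atTop]
    refine eventually_atTop.2 ⟨N₁ + j, fun i hi => ?_⟩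
    show (y i) ^ 2 = (f j i) ^ 2
    simp only [f]
    rw [if_neg (by omega)]
  let w : ℕ → L2 := fun j => mk (f j) (hf j)
  have hwi : ∀ j i, w j i = f j i := fun j i => rfl
  have hwE : ∀ j, w j ∈ E := by
    intro j i
    rw [hwi]
    simp only [f]
    split_ifs
    · exact one_div_mem_K hm
    · exact hCE hy i
  have hw0 : w 0 = y := by
    ext i
    rw [hwi]
    simp only [f]
    rw [if_neg (by omega)]
  have hex : ∃ j, w j ∉ C := by
    obtain ⟨j, hj⟩ := exists_nat_gt (R ^ 2 / (1 / (m : ℝ)) ^ 2)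
    refine ⟨j, fun hjC => ?_⟩
    have h1 := sum_le_norm_sq (w j) (Finset.Ico N₁ (N₁ + j))
    have h2 : ∑ i ∈ Finset.Ico N₁ (N₁ + j), (w j i) ^ 2 = j * (1 / (m : ℝ)) ^ 2 := by
      have : ∀ i ∈ Finset.Ico N₁ (N₁ + j), (w j i) ^ 2 = (1 / (m : ℝ)) ^ 2 := by
        intro i hi
        rw [Finset.mem_Ico] at hi
        rw [hwi]
        simp only [f]
        rw [if_pos hi]
      rw [Finset.sum_congr rfl this, Finset.sum_const, Nat.card_Ico, nsmul_eq_mul]
      congr 2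
      omega
    rw [h2] at h1
    have h3 : ‖w j‖ ^ 2 ≤ R ^ 2 := by
      have := hR _ hjC
      have h0 := norm_nonneg (w j)
      nlinarith
    rw [div_lt_iff₀ hpos] at hj
    linarith
  classical
  have hspec := Nat.find_spec hex
  have hmin := fun k (h : k < Nat.find hex) => Nat.find_min hex h
  set j₀ := Nat.find hex with hj₀
  have hj0 : j₀ ≠ 0 := by
    intro h
    rw [h, hw0] at hspec
    exact hspec hy
  obtain ⟨j, hj⟩ : ∃ j, j₀ = j + 1 := ⟨j₀ - 1, by omega⟩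
  have hjC : w j ∈ C := not_not.1 (hmin j (by omega))
  rw [hj] at hspec
  refine ⟨w j, N₁ + j, hjC, by omega, fun i hi => ?_, fun i hi => ?_, w (j + 1), hwE _, hspec, ?_⟩
  · rw [hwi]
    simp only [f]
    rw [if_neg (by omega)]
  · rw [hwi]
    simp only [f]
    rw [if_neg (by omega)]
    exact hyx i (by omega)
  · have hb : ‖w (j + 1) - w j‖ ^ 2 ≤ (1 / (m : ℝ)) ^ 2 := by
      refine norm_sq_le fun M => ?_
      have hterm : ∀ i ∈ Finset.range M, ((w (j + 1) - w j : L2) i) ^ 2 =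
          if i = N₁ + j then (1 / (m : ℝ) - y (N₁ + j)) ^ 2 else 0 := by
        intro i _
        have e : (w (j + 1) - w j : L2) i = f (j + 1) i - f j i := rfl
        rw [e]
        simp only [f]
        by_cases hi : i = N₁ + j
        · rw [if_pos (by omega), if_neg (by omega), if_pos hi, hi]
        · rw [if_neg hi]
          by_cases hi2 : N₁ ≤ i ∧ i < N₁ + j
          · rw [if_pos (by omega), if_pos hi2, sub_self]
            norm_num
          · rw [if_neg (by omega), if_neg hi2, sub_self]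
            norm_num
      rw [Finset.sum_congr rfl hterm, Finset.sum_ite_eq']
      have hy0 : 0 ≤ y (N₁ + j) := K_nonneg (hCE hy _)
      have hy1 : y (N₁ + j) ≤ 1 / (m : ℝ) := by
        have h1 := hN₀ (N₁ + j) (by omega)
        rw [← hyx (N₁ + j) (by omega)] at h1
        have h2 := abs_lt_of_sq_lt_sq h1 (by positivity)
        exact (le_abs_self _).trans h2.le
      split_ifs
      · nlinarith
      · exact hpos.le
    exact abs_le_of_sq_le_sq' hb (by positivity) |>.2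

/-- Erdős' theorem. -/
theorem clopen_unbounded {C : Set L2} (hCE : C ⊆ E) (hcl : IsClosed C)
    (hop : ∀ y ∈ C, ∃ ε > 0, ∀ z ∈ E, ‖z - y‖ < ε → z ∈ C) {R : ℝ} (hR : ∀ y ∈ C, ‖y‖ ≤ R) :
    C = ∅ := by
  by_contra hne
  obtain ⟨x, hx⟩ := Set.nonempty_iff_ne_empty.2 hne
  let St : Type := {p : L2 × ℕ // p.1 ∈ C ∧ ∀ i, p.2 ≤ i → p.1 i = x i}
  have hst : ∀ (m : ℕ) (p : St), ∃ q : St, p.1.2 < q.1.2 ∧ (∀ i < p.1.2, q.1.1 i = p.1.1 i) ∧
      ∃ z ∈ E, z ∉ C ∧ ‖z - q.1.1‖ ≤ 1 / ((m + 1 : ℕ) : ℝ) := by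
    intro m p
    obtain ⟨y', N', h1, h2, h3, h4, h5⟩ := stage hCE hR (m + 1) (Nat.succ_pos m) p.1.1 p.1.2 p.2.1 p.2.2
    exact ⟨⟨(y', N'), h1, h4⟩, h2, h3, h5⟩
  choose step hs1 hs2 hs3 using hst
  obtain ⟨s, hs⟩ : ∃ s : ℕ → St, ∀ m, s (m + 1) = step m (s m) :=
    ⟨fun m => Nat.rec (⟨(x, 0), hx, fun i _ => rfl⟩ : St) (fun m p => step m p) m, fun m => rfl⟩
  have hN : ∀ m, m ≤ (s m).1.2 := by
    intro m
    induction m with
    | zero => exact Nat.zero_le _
    | succ m ih =>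
      have := hs1 m (s m)
      rw [← hs] at this
      omega
  have hNmono : Monotone fun m => (s m).1.2 := by
    refine monotone_nat_of_le_succ fun m => ?_
    have := hs1 m (s m)
    rw [← hs] at this
    exact this.le
  have hst : ∀ m k, m ≤ k → ∀ i < (s m).1.2, (s k).1.1 i = (s m).1.1 i := by
    intro m k hmk
    induction k, hmk using Nat.le_induction with
    | base => intro i _; rfl
    | succ k hmk ih =>
      intro i hi
      rw [hs, hs2 k (s k) i (lt_of_lt_of_le hi (hNmono hmk)), ih i hi]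
  let g : ℕ → ℝ := fun i => (s (i + 1)).1.1 i
  have hg : ∀ m, ∀ i < (s m).1.2, g i = (s m).1.1 i := by
    intro m i hi
    rcases le_total m (i + 1) with h | h
    · exact hst m (i + 1) h i hi
    · exact (hst (i + 1) m h i (hN (i + 1))).symm
  have hgs : Summable fun i => (g i) ^ 2 := by
    refine summable_of_sum_range_le (c := R ^ 2) (fun i => sq_nonneg _) fun M => ?_
    have e : ∑ i ∈ Finset.range M, (g i) ^ 2 = ∑ i ∈ Finset.range M, ((s M).1.1 i) ^ 2 := by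
      refine Finset.sum_congr rfl fun i hi => ?_
      rw [hg M i (lt_of_lt_of_le (Finset.mem_range.1 hi) (hN M))]
    rw [e]
    refine (sum_le_norm_sq _ _).trans ?_
    have h1 := hR _ (s M).2.1
    have h2 := norm_nonneg (s M).1.1
    nlinarith
  set y : L2 := mk g hgs with hy
  have hyi : ∀ i, y i = g i := fun i => rfl
  have hlim : Tendsto (fun m => (s m).1.1) atTop (𝓝 y) := by
    rw [tendsto_iff_norm_sub_tendsto_zero]
    have h1 : Tendsto (fun m => ∑' k, ((y - x : L2) (k + (s m).1.2)) ^ 2) atTop (𝓝 0) := by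
      have h2 := tendsto_sum_nat_add (fun i => ((y - x : L2) i) ^ 2)
      exact h2.comp (tendsto_atTop_mono hN tendsto_id)
    have h3 : Tendsto (fun m => ‖(s m).1.1 - y‖ ^ 2) atTop (𝓝 0) := by
      refine squeeze_zero (fun m => sq_nonneg _) (fun m => ?_) h1
      rw [norm_sub_rev]
      exact norm_sub_sq_le_tail (fun i hi => hg m i hi) (s m).2.2
    have h4 := h3.sqrt
    simpa using h4
  have hyC : y ∈ C := hcl.mem_of_tendsto hlim (Eventually.of_forall fun m => (s m).2.1)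
  obtain ⟨ε, hε, hop'⟩ := hop y hyC
  have hlim1 : Tendsto (fun m => ‖(s (m + 1)).1.1 - y‖) atTop (𝓝 0) := by
    have := tendsto_iff_norm_sub_tendsto_zero.1 hlim
    exact this.comp (tendsto_add_atTop_nat 1)
  have hlim2 : Tendsto (fun m : ℕ => 1 / ((m + 1 : ℕ) : ℝ) + ‖(s (m + 1)).1.1 - y‖) atTop (𝓝 0) := by
    have h5 := tendsto_one_div_add_atTop_nhds_zero_nat (𝕜 := ℝ)
    have h6 := h5.add hlim1
    rw [add_zero] at h6
    refine h6.congr fun m => ?_
    push_cast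
    rfl
  obtain ⟨m, hm⟩ := (hlim2.eventually_lt_const hε).exists
  obtain ⟨z, hzE, hzC, hz⟩ := hs3 m (s m)
  rw [← hs] at hz
  refine hzC (hop' z hzE ?_)
  calc ‖z - y‖ = ‖(z - (s (m + 1)).1.1) + ((s (m + 1)).1.1 - y)‖ := by congr 1; abel
    _ ≤ ‖z - (s (m + 1)).1.1‖ + ‖(s (m + 1)).1.1 - y‖ := norm_add_le _ _
    _ ≤ 1 / ((m + 1 : ℕ) : ℝ) + ‖(s (m + 1)).1.1 - y‖ := by gcongr
    _ < ε := hm

end Pool.Agent.V8H81.Erd
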