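import Pool.Agent.V8H81.Erd.L2

/-!
# Bounded closed subsets of complete Erdős space are zero-dimensional at some point
-/

set_option autoImplicit false

open Filter Topology Set

namespace Pool.Agent.V8H81.Erd

/-- the coordinates -/
def coords (x : L2) : ℕ → ℝ := fun i => x i

theorem continuous_coords : Continuous coords := continuous_pi continuous_coord

theorem totallyDisconnected_of_subset {X : Set (ℕ → ℝ)} (hX : ∀ x ∈ X, ∀ i, x i ∈ K) :
    IsTotallyDisconnected X := by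
  intro t ht hp u hu v hv
  funext i
  have h1 : IsPreconnected ((fun x : ℕ → ℝ => x i) '' t) :=
    hp.image _ (continuous_apply i).continuousOn
  have h2 : (fun x : ℕ → ℝ => x i) '' t ⊆ K := by
    rintro _ ⟨x, hx, rfl⟩
    exact hX x (ht hx) i
  exact K_countable.isTotallyDisconnected _ h2 h1 ⟨u, hu, rfl⟩ ⟨v, hv, rfl⟩

theorem zero_dim_point {A : Set L2} (hAE : A ⊆ E) (hA : IsClosed A) (hne : A.Nonempty) {R : ℝ}
    (hR : ∀ y ∈ A, ‖y‖ ≤ R) :
    ∃ a ∈ A, ∀ ε > 0, ∃ W ⊆ A, a ∈ W ∧ (∀ w ∈ W, ‖w - a‖ < ε) ∧ IsClosed W ∧ IsClosed (A \ W) := by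
  classical
  set X : Set (ℕ → ℝ) := closure (coords '' A) with hX
  have hXK : X ⊆ Set.pi univ fun _ => K := by
    refine closure_minimal ?_ (isClosed_set_pi fun i _ => K_compact.isClosed)
    rintro _ ⟨y, hy, rfl⟩ i _
    exact hAE hy i
  have hXK' : ∀ x ∈ X, ∀ i, x i ∈ K := fun x hx i => hXK hx i (mem_univ i)
  have hXc : IsCompact X := (isCompact_univ_pi fun _ => K_compact).of_isClosed_subset
    isClosed_closure hXK
  have hsum : ∀ x ∈ X, ∀ M, ∑ i ∈ Finset.range M, (x i) ^ 2 ≤ R ^ 2 := by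
    intro x hx M
    have hc : IsClosed {z : ℕ → ℝ | ∑ i ∈ Finset.range M, (z i) ^ 2 ≤ R ^ 2} :=
      isClosed_le (by fun_prop) continuous_const
    have hsub : coords '' A ⊆ {z : ℕ → ℝ | ∑ i ∈ Finset.range M, (z i) ^ 2 ≤ R ^ 2} := by
      rintro _ ⟨y, hy, rfl⟩
      have h1 := sum_le_norm_sq y (Finset.range M)
      have h2 := hR y hy
      have h3 := norm_nonneg y
      show ∑ i ∈ Finset.range M, (y i) ^ 2 ≤ R ^ 2
      nlinarith
    exact closure_minimal hsub hc hx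
  have hsm : ∀ x ∈ X, Summable fun i => (x i) ^ 2 := fun x hx =>
    summable_of_sum_range_le (fun i => sq_nonneg _) (hsum x hx)
  have : CompactSpace X := isCompact_iff_compactSpace.1 hXc
  have : TotallyDisconnectedSpace X :=
    totallyDisconnectedSpace_subtype_iff.2 (totallyDisconnected_of_subset hXK')
  have : Nonempty X := by
    obtain ⟨y, hy⟩ := hne
    exact ⟨⟨coords y, subset_closure ⟨y, hy, rfl⟩⟩⟩
  let F : ℕ → ℕ → Set X := fun m N => {x | ∀ M, ∑ i ∈ Finset.Ico N M, (x.1 i) ^ 2 ≤ 1 / ((m : ℝ) + 1)}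
  have hFc : ∀ m N, IsClosed (F m N) := by
    intro m N
    have : F m N = ⋂ M, {x : X | ∑ i ∈ Finset.Ico N M, (x.1 i) ^ 2 ≤ 1 / ((m : ℝ) + 1)} := by
      ext x
      simp [F]
    rw [this]
    exact isClosed_iInter fun M => isClosed_le (continuous_finsetSum _ fun i _ =>
      ((continuous_apply i).comp continuous_subtype_val).pow 2) continuous_const
  have hFu : ∀ m, ⋃ N, F m N = univ := by
    intro m
    refine eq_univ_of_forall fun x => mem_iUnion.2 ?_
    have hs := hsm x.1 x.2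
    have ht := tendsto_sum_nat_add (fun i => (x.1 i) ^ 2)
    have hpos : (0 : ℝ) < 1 / ((m : ℝ) + 1) := by positivity
    obtain ⟨N, hN⟩ := (ht.eventually_lt_const hpos).exists
    refine ⟨N, fun M => ?_⟩
    have hs' : Summable fun k => (x.1 (k + N)) ^ 2 := (summable_nat_add_iff N).2 hs
    refine le_trans ?_ hN.le
    rw [Finset.sum_Ico_eq_sum_range]
    have e : ∀ k ∈ Finset.range (M - N), (x.1 (N + k)) ^ 2 = (x.1 (k + N)) ^ 2 := by
      intro k _
      rw [add_comm]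
    rw [Finset.sum_congr rfl e]
    exact hs'.sum_le_tsum _ fun i _ => sq_nonneg _
  have hD : ∀ m, Dense (⋃ N, interior (F m N)) := fun m =>
    dense_iUnion_interior_of_closed (hFc m) (hFu m)
  have hDD : Dense (⋂ m, ⋃ N, interior (F m N)) :=
    dense_iInter_of_isOpen (fun m => isOpen_iUnion fun N => isOpen_interior) hD
  obtain ⟨x, hx⟩ := hDD.nonempty
  rw [mem_iInter] at hx
  set a : L2 := mk x.1 (hsm x.1 x.2) with ha
  have hai : ∀ i, a i = x.1 i := fun i => rfl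
  -- neighbourhoods
  have near : ∀ ε > 0, ∃ O : Set X, IsOpen O ∧ x ∈ O ∧
      ∀ (y : L2) (hy : coords y ∈ X), (⟨coords y, hy⟩ : X) ∈ O → ‖y - a‖ < ε := by
    intro ε hε
    obtain ⟨m, hm⟩ := exists_nat_gt (5 / ε ^ 2)
    have hε2 : 0 < ε ^ 2 := by positivity
    have hm5 : 5 / ((m : ℝ) + 1) < ε ^ 2 := by
      rw [div_lt_iff₀ (by positivity)]
      rw [div_lt_iff₀ hε2] at hm
      nlinarith
    obtain ⟨N, hN⟩ := mem_iUnion.1 (hx m)
    refine ⟨interior (F m N) ∩ {z : X | ∑ i ∈ Finset.range N, (z.1 i - x.1 i) ^ 2 < 1 / ((m : ℝ) + 1)},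
      isOpen_interior.inter (isOpen_lt (continuous_finsetSum _ fun i _ =>
        (((continuous_apply i).comp continuous_subtype_val).sub continuous_const).pow 2)
        continuous_const), ⟨hN, ?_⟩, ?_⟩
    · show ∑ i ∈ Finset.range N, (x.1 i - x.1 i) ^ 2 < 1 / ((m : ℝ) + 1)
      simp only [sub_self]
      have : (0 : ℝ) < 1 / ((m : ℝ) + 1) := by positivity
      simpa using this
    · rintro y hy ⟨h1, h2⟩
      have h1' : ∀ M, ∑ i ∈ Finset.Ico N M, (y i) ^ 2 ≤ 1 / ((m : ℝ) + 1) := interior_subset h1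
      have h2' : ∑ i ∈ Finset.range N, (y i - x.1 i) ^ 2 < 1 / ((m : ℝ) + 1) := h2
      have h3 : ∀ M, ∑ i ∈ Finset.Ico N M, (x.1 i) ^ 2 ≤ 1 / ((m : ℝ) + 1) := interior_subset hN
      have h4 : ‖y - a‖ ^ 2 ≤ 5 / ((m : ℝ) + 1) := by
        refine norm_sq_le fun M => ?_
        have hi : ∀ i, (y - a : L2) i = y i - x.1 i := fun i => rfl
        simp only [hi]
        have h5 : ∑ i ∈ Finset.range M, (y i - x.1 i) ^ 2 ≤
            ∑ i ∈ Finset.range (max N M), (y i - x.1 i) ^ 2 :=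
          Finset.sum_le_sum_of_subset_of_nonneg
            (Finset.range_mono (le_max_right _ _)) fun i _ _ => sq_nonneg _
        have h6 : ∑ i ∈ Finset.range (max N M), (y i - x.1 i) ^ 2 =
            ∑ i ∈ Finset.range N, (y i - x.1 i) ^ 2 +
              ∑ i ∈ Finset.Ico N (max N M), (y i - x.1 i) ^ 2 :=
          (Finset.sum_range_add_sum_Ico _ (le_max_left _ _)).symm
        have h7 : ∑ i ∈ Finset.Ico N (max N M), (y i - x.1 i) ^ 2 ≤
            ∑ i ∈ Finset.Ico N (max N M), (2 * (y i) ^ 2 + 2 * (x.1 i) ^ 2) :=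
          Finset.sum_le_sum fun i _ => by nlinarith [sq_nonneg (y i + x.1 i)]
        rw [Finset.sum_add_distrib, ← Finset.mul_sum, ← Finset.mul_sum] at h7
        have h8 := h1' (max N M)
        have h9 := h3 (max N M)
        have h10 : 5 / ((m : ℝ) + 1) = 5 * (1 / ((m : ℝ) + 1)) := by ring
        rw [h10]
        linarith
      have h5 := norm_nonneg (y - a)
      nlinarith
  have haA : a ∈ A := by
    rw [← hA.closure_eq, Metric.mem_closure_iff]
    intro ε hε
    obtain ⟨O, hO, hxO, hOε⟩ := near ε hε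
    obtain ⟨O', hO', rfl⟩ := isOpen_induced_iff.1 hO
    have hxc : x.1 ∈ closure (coords '' A) := x.2
    obtain ⟨_, hzO, y, hy, rfl⟩ := mem_closure_iff.1 hxc O' hO' hxO
    refine ⟨y, hy, ?_⟩
    rw [dist_comm, dist_eq_norm]
    exact hOε y (subset_closure ⟨y, hy, rfl⟩) hzO
  refine ⟨a, haA, fun ε hε => ?_⟩
  obtain ⟨O, hO, hxO, hOε⟩ := near ε hε
  obtain ⟨V, hV, hxV, hVO⟩ := compact_exists_isClopen_in_isOpen hO hxO
  let φ : A → X := fun y => ⟨coords y.1, subset_closure ⟨y.1, y.2, rfl⟩⟩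
  have hφ : Continuous φ := by
    refine Continuous.subtype_mk ?_ _
    exact continuous_coords.comp continuous_subtype_val
  have hcm := hA.isClosedEmbedding_subtypeVal.isClosedMap
  refine ⟨Subtype.val '' (φ ⁻¹' V), ?_, ⟨⟨a, haA⟩, ?_, rfl⟩, ?_, ?_, ?_⟩
  · rintro _ ⟨y, _, rfl⟩
    exact y.2
  · show φ ⟨a, haA⟩ ∈ V
    have : φ ⟨a, haA⟩ = x := Subtype.ext rfl
    rw [this]
    exact hxV
  · rintro _ ⟨y, hy, rfl⟩
    exact hOε y.1 _ (hVO hy)
  · exact hcm _ (hV.isClosed.preimage hφ)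
  · have e : A \ Subtype.val '' (φ ⁻¹' V) = Subtype.val '' (φ ⁻¹' Vᶜ) := by
      ext y
      constructor
      · rintro ⟨hy, hn⟩
        exact ⟨⟨y, hy⟩, fun h => hn ⟨⟨y, hy⟩, h, rfl⟩, rfl⟩
      · rintro ⟨y, hy, rfl⟩
        refine ⟨y.2, ?_⟩
        rintro ⟨y', hy', he⟩
        rw [Subtype.ext he] at hy'
        exact hy hy'
    rw [e]
    exact hcm _ (hV.compl.isClosed.preimage hφ)

end Pool.Agent.V8H81.Erd
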