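import Pool.Agent.V8H81.Erd.Unbounded
import Pool.Agent.V8H81.Erd.ZeroDim

/-!
# Complete Erdős space is unstable

The countable power of complete Erdős space is not homeomorphic to a closed subset of complete
Erdős space.
-/

set_option autoImplicit false

open Filter Topology Set

namespace Pool.Agent.V8H81.Erd

theorem zero_mem_E : (0 : L2) ∈ E := fun _ => Or.inl rfl

theorem no_closed_embedding {Φ : (ℕ → E) → E} (hΦ : IsClosedEmbedding Φ) : False := by
  classical
  let p : ℕ → E := fun _ => ⟨0, zero_mem_E⟩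
  -- a tail with bounded image
  have hopen : IsOpen (Φ ⁻¹' Metric.ball (Φ p) 1) := Metric.isOpen_ball.preimage hΦ.continuous
  obtain ⟨I, u, hu1, hu2⟩ := isOpen_pi_iff.1 hopen p (Metric.mem_ball_self one_pos)
  obtain ⟨n, hn⟩ : ∃ n, ∀ i ∈ I, i < n := ⟨I.sup id + 1, fun i hi =>
    Nat.lt_succ_of_le (Finset.le_sup (f := id) hi)⟩
  let S : (ℕ → E) → (ℕ → E) := fun y i => if i < n then p i else y (i - n)
  let L : (ℕ → E) → (ℕ → E) := fun z i => z (i + n)
  have hS : Continuous S := by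
    refine continuous_pi fun i => ?_
    by_cases hi : i < n
    · simp only [S, hi, if_true]
      exact continuous_const
    · simp only [S, hi, if_false]
      exact continuous_apply _
  have hL : Continuous L := continuous_pi fun i => continuous_apply _
  have hLS : Function.LeftInverse L S := by
    intro y
    funext i
    simp only [S, L]
    rw [if_neg (by omega), Nat.add_sub_cancel]
  have hSe : IsClosedEmbedding S := hLS.isClosedEmbedding hL hS
  set Ψ : (ℕ → E) → E := Φ ∘ S with hΨdef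
  have hΨ : IsClosedEmbedding Ψ := hΦ.comp hSe
  have hb : ∀ y, dist (Ψ y) (Φ p) < 1 := by
    intro y
    have h1 : S y ∈ Φ ⁻¹' Metric.ball (Φ p) 1 := by
      refine hu2 fun i hi => ?_
      have h2 : S y i = p i := by
        simp only [S]
        rw [if_pos (hn i hi)]
      rw [h2]
      exact (hu1 i hi).2
    exact h1
  -- the image in `L2`
  set A : Set L2 := Subtype.val '' range Ψ with hAdef
  have hcm := E_closed.isClosedEmbedding_subtypeVal.isClosedMap
  have hAE : A ⊆ E := by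
    rintro _ ⟨y, _, rfl⟩
    exact y.2
  have hAc : IsClosed A := hcm _ hΨ.isClosed_range
  have hAR : ∀ y ∈ A, ‖y‖ ≤ ‖(Φ p : L2)‖ + 1 := by
    rintro _ ⟨_, ⟨y, rfl⟩, rfl⟩
    have h1 := hb y
    rw [Subtype.dist_eq, dist_eq_norm] at h1
    have h2 := norm_le_norm_add_norm_sub' (Ψ y : L2) (Φ p : L2)
    linarith
  obtain ⟨a, haA, ha⟩ := zero_dim_point hAE hAc ⟨_, _, ⟨p, rfl⟩, rfl⟩ hAR
  obtain ⟨_, ⟨q, rfl⟩, rfl⟩ := haA
  -- a neighbourhood of `q`
  have hU : IsOpen {y : ℕ → E | ‖(y 0 : L2) - (q 0 : L2)‖ < 1} := by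
    refine isOpen_lt ?_ continuous_const
    exact ((continuous_subtype_val.comp (continuous_apply 0)).sub continuous_const).norm
  obtain ⟨O, hO, hOU⟩ := hΨ.isInducing.isOpen_iff.1 hU
  have hqO : Ψ q ∈ O := by
    have : q ∈ Ψ ⁻¹' O := by
      rw [hOU]
      simp
    exact this
  obtain ⟨ε, hε, hεO⟩ := Metric.isOpen_iff.1 hO _ hqO
  obtain ⟨W, hWA, hqW, hWε, hWc, hWc'⟩ := ha ε hε
  -- the slice
  let θ : E → L2 := fun t => (Ψ (Function.update q 0 t) : L2)
  have hθ : Continuous θ := by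
    refine continuous_subtype_val.comp (hΨ.continuous.comp ?_)
    exact continuous_const.update 0 continuous_id
  have hθA : ∀ t, θ t ∈ A := fun t => ⟨_, ⟨_, rfl⟩, rfl⟩
  have key := clopen_unbounded (C := Subtype.val '' (θ ⁻¹' W)) (R := ‖(q 0 : L2)‖ + 1) ?_ ?_ ?_ ?_
  · have h1 : (q 0 : L2) ∈ Subtype.val '' (θ ⁻¹' W) := by
      refine ⟨q 0, ?_, rfl⟩
      show (Ψ (Function.update q 0 (q 0)) : L2) ∈ W
      rw [Function.update_eq_self]
      exact hqW
    rw [key] at h1
    exact h1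
  · rintro _ ⟨t, _, rfl⟩
    exact t.2
  · exact hcm _ (hWc.preimage hθ)
  · rintro _ ⟨t, ht, rfl⟩
    have hC' : IsClosed (Subtype.val '' (θ ⁻¹' (A \ W))) := hcm _ (hWc'.preimage hθ)
    have htC' : (t : L2) ∉ Subtype.val '' (θ ⁻¹' (A \ W)) := by
      rintro ⟨t', ht', he⟩
      rw [Subtype.ext he] at ht'
      exact ht'.2 ht
    obtain ⟨δ, hδ, hδ'⟩ := Metric.isOpen_iff.1 hC'.isOpen_compl _ htC'
    refine ⟨δ, hδ, fun z hz hzt => ?_⟩
    have h1 := hδ' (show z ∈ Metric.ball (t : L2) δ by rw [Metric.mem_ball, dist_eq_norm]; exact hzt)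
    refine ⟨⟨z, hz⟩, ?_, rfl⟩
    by_contra hn'
    exact h1 ⟨⟨z, hz⟩, ⟨hθA _, hn'⟩, rfl⟩
  · rintro _ ⟨t, ht, rfl⟩
    have h1 := hWε _ ht
    have h2 : Ψ (Function.update q 0 t) ∈ O := by
      refine hεO ?_
      rw [Metric.mem_ball, Subtype.dist_eq, dist_eq_norm]
      exact h1
    have h3 : Function.update q 0 t ∈ Ψ ⁻¹' O := h2
    rw [hOU] at h3
    have h4 : ‖(Function.update q 0 t 0 : L2) - (q 0 : L2)‖ < 1 := h3
    rw [Function.update_self] at h4
    have h5 := norm_le_norm_add_norm_sub' (t : L2) (q 0 : L2)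
    linarith

end Pool.Agent.V8H81.Erd
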